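import Pool.Graph.R_seed8.TH997.SP.Cons

set_option autoImplicit false

/-!
# Interleaved and shifted linear recurrence sequences
-/

namespace Pool.Agent.Helper98.SK

open Polynomial Finset Pool.Agent.H692R2.USS Pool.Agent.TH997.US Pool.Agent.TH997.SP
open scoped Classical

lemma cv_length (p : List ℤ × List ℤ) : (cv p).1.length = p.1.length := by
  simp [cv]

/-- a sequence annihilated by a monic polynomial with nonzero constant coefficient has data -/
theorem exists_data {f : ℤ[X]} (hf : f.Monic) (h0 : f.coeff 0 ≠ 0) (hd : 1 ≤ f.natDegree)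
    {u : ℕ → ℤ} (hu : Ann f u) : ∃ p : List ℤ × List ℤ, Val (cv p) ∧ p.1.length = f.natDegree ∧
      ∀ n, sq (cv p) n = u n := by
  set d := f.natDegree with hdd
  set p : List ℤ × List ℤ := ((List.range d).map fun i => - f.coeff (d - 1 - i),
    (List.range d).map u) with hp
  have hl1 : p.1.length = d := by simp [hp]
  have hl2 : p.2.length = d := by simp [hp]
  have hg1 : ∀ i < d, p.1.getD i 0 = - f.coeff (d - 1 - i) := by
    intro i hi
    rw [hp]
    simp [List.getD_eq_getElem?_getD, hi]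
  have hg2 : ∀ i < d, p.2.getD i 0 = u i := by
    intro i hi
    rw [hp]
    simp [List.getD_eq_getElem?_getD, hi]
  have hv : Val (cv p) := by
    rw [val_cv, hl1, hl2, hg1 _ (by omega)]
    refine ⟨rfl, hd, ?_⟩
    simpa using h0
  refine ⟨p, hv, hl1, fun n => ((rec_iff hv u).1 ?_ n).symm⟩
  refine ⟨fun i hi => ?_, fun n => ?_⟩
  · rw [hl1] at hi
    rw [hg2 i hi]
  · rw [hl1]
    have h1 := (ann_iff (Nat.lt_succ_self _)).1 hu n
    rw [Finset.sum_range_succ, hf.coeff_natDegree, one_mul, ← hdd] at h1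
    have h2 : ∑ j ∈ range d, p.1.getD j 0 * u (n + d - 1 - j) =
        - ∑ i ∈ range d, f.coeff i * u (n + i) := by
      rw [← Finset.sum_neg_distrib, ← Finset.sum_range_reflect]
      refine Finset.sum_congr rfl fun j hj => ?_
      rw [Finset.mem_range] at hj
      rw [hg1 _ (by omega), show n + d - 1 - (d - 1 - j) = n + j by omega,
        show d - 1 - (d - 1 - j) = j by omega]
      ring
    rw [h2]
    linarith

/-- the polynomial of an input -/
noncomputable def pol (p : List Z × List Z) : ℤ[X] := PG (Pool.Agent.H884R2.Sko.Fq p.1)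

lemma pol_monic (p : List Z × List Z) : (pol p).Monic := PG_monic _

lemma pol_natDegree (p : List Z × List Z) : (pol p).natDegree = p.1.length := by
  unfold pol
  rw [PG_natDegree, Pool.Agent.H884R2.Sko.Fq_length]

lemma pol_coeff {p : List Z × List Z} (hp : Val p) : (pol p).coeff 0 ≠ 0 := coeff0_sq hp

lemma pol_ann {p : List Z × List Z} (hp : Val p) : Ann (pol p) (sq p) := ann_sq hp

/-- equality can be tested -/
lemma eq_of_eq {f g : ℤ[X]} (hf : f.Monic) (hg : g.Monic) {u v : ℕ → ℤ} (hu : Ann f u)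
    (hv : Ann g v) (h : ∀ n < f.natDegree + g.natDegree, u n = v n) (n : ℕ) : u n = v n := by
  refine (hu.mul_right g).ext (hf.mul hg) (hv.mul_left f) (fun n hn => h n ?_) n
  rwa [hf.natDegree_mul hg] at hn

/-! ### interleaving -/

/-- a sequence whose `k` parts are annihilated -/
lemma ann_expand {k : ℕ} (hk : 0 < k) {f : ℤ[X]} {z : ℕ → ℤ}
    (h : ∀ r < k, Ann f (fun l => z (r + k * l))) : Ann (expand ℤ k f) z := by
  unfold Ann
  rw [expand_aeval, aeval_eq_sum_range' (n := f.natDegree + 1) (Nat.lt_succ_self _)]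
  funext n
  rw [LinearMap.sum_apply, Finset.sum_apply]
  have e : ∀ i, (f.coeff i • ((E ℤ ^ k) ^ i)) z n = f.coeff i * z (n + k * i) := by
    intro i
    rw [LinearMap.smul_apply, Pi.smul_apply, smul_eq_mul, ← pow_mul, E_pow_apply]
  rw [Finset.sum_congr rfl fun i _ => e i]
  have h1 := (ann_iff (Nat.lt_succ_self _)).1 (h (n % k) (Nat.mod_lt _ hk)) (n / k)
  rw [Pi.zero_apply, ← h1]
  refine Finset.sum_congr rfl fun i _ => ?_
  rw [mul_add, ← add_assoc, Nat.mod_add_div]

/-- interleaving of `u 0, ..., u (k - 1)` -/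
def ilv (k : ℕ) (u : ℕ → ℕ → ℤ) (n : ℕ) : ℤ := u (n % k) (n / k)

lemma ilv_apply {k : ℕ} (u : ℕ → ℕ → ℤ) {r : ℕ} (hr : r < k) (n : ℕ) :
    ilv k u (r + k * n) = u r n := by
  unfold ilv
  rw [Nat.add_mul_mod_self_left, Nat.mod_eq_of_lt hr, Nat.add_mul_div_left _ _ (by omega),
    Nat.div_eq_of_lt hr, zero_add]

/-- the interleaving has data -/
theorem exists_ilv {k : ℕ} (hk : 1 ≤ k) (q : ℕ → List ℤ × List ℤ) (hq : ∀ i, Val (cv (q i))) :
    ∃ w : List ℤ × List ℤ, Val (cv w) ∧ w.1.length = k * ∑ i ∈ range k, (q i).1.length ∧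
      ∀ r < k, ∀ n, sq (cv w) (r + k * n) = sq (cv (q r)) n := by
  set f : ℤ[X] := ∏ i ∈ range k, pol (cv (q i)) with hf
  have hm : f.Monic := monic_prod_of_monic _ _ fun i _ => pol_monic _
  have hdeg : f.natDegree = ∑ i ∈ range k, (q i).1.length := by
    rw [hf, natDegree_prod_of_monic _ _ fun i _ => pol_monic _]
    refine Finset.sum_congr rfl fun i _ => ?_
    rw [pol_natDegree, cv_length]
  have hpos : 1 ≤ f.natDegree := by
    rw [hdeg]
    have h1 := (hq 0).2.1
    rw [cv_length] at h1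
    exact h1.trans (Finset.single_le_sum (f := fun i => (q i).1.length) (fun _ _ => Nat.zero_le _)
      (Finset.mem_range.mpr hk))
  have hc : f.coeff 0 ≠ 0 := by
    rw [hf, coeff_zero_prod]
    exact Finset.prod_ne_zero_iff.mpr fun i _ => pol_coeff (hq i)
  obtain ⟨w, h1, h2, h3⟩ := exists_data (f := expand ℤ k f) (hm.expand (by omega))
    (by rwa [coeff_expand (by omega), if_pos (dvd_zero _), Nat.zero_div])
    (by
      rw [natDegree_expand]
      exact Nat.mul_pos hpos hk)
    (u := ilv k fun i => sq (cv (q i))) (ann_expand (by omega) fun r hr => by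
      have e : (fun l => ilv k (fun i => sq (cv (q i))) (r + k * l)) = sq (cv (q r)) :=
        funext fun n => ilv_apply _ hr n
      rw [e]
      exact (pol_ann (hq r)).of_dvd (Finset.dvd_prod_of_mem _ (Finset.mem_range.mpr hr)))
  refine ⟨w, h1, ?_, fun r hr n => ?_⟩
  · rw [h2, natDegree_expand, hdeg, mul_comm]
  · rw [h3, ilv_apply _ hr]

/-! ### isolated zeros from a given number on -/

/-- periodic sequences -/
lemma ann_periodic {T : ℕ} {v : ℕ → ℤ} (hv : ∀ n, v (n + T) = v n) : Ann (X ^ T - 1 : ℤ[X]) v := by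
  unfold Ann
  rw [map_sub, map_pow, aeval_X, map_one]
  funext n
  rw [LinearMap.sub_apply, Pi.sub_apply, E_pow_apply, Module.End.one_apply, hv, sub_self]
  rfl

/-- shifts -/
lemma ann_shift {f : ℤ[X]} {u : ℕ → ℤ} (hu : Ann f u) (N : ℕ) : Ann f (fun n => u (N + n)) := by
  rw [ann_iff (Nat.lt_succ_self _)] at hu ⊢
  intro n
  have := hu (N + n)
  simp only [add_assoc] at this ⊢
  exact this

/-- a sequence whose zeros are the isolated zeros of `p` from `N` on -/
noncomputable def iso (p : List Z × List Z) (N n : ℕ) : ℤ :=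
  sq p (N + n) + if nz p ((N + n) % Tf p) then 0 else 1

lemma iso_eq_zero {p : List Z × List Z} (hp : Val p) (N n : ℕ) :
    iso p N n = 0 ↔ Spor p (N + n) := by
  unfold iso
  by_cases h : nz p ((N + n) % Tf p)
  · rw [if_pos h, add_zero, show sq p (N + n) = iv (vv p (N + n)) from rfl, iv_eq_zero]
    exact ⟨fun h1 => ⟨hp, h1, h⟩, fun h1 => h1.2.1⟩
  · rw [if_neg h]
    have h1 := zero_class hp h ((N + n) / Tf p)
    rw [Nat.mod_add_div] at h1
    rw [h1]
    exact ⟨fun h2 => absurd h2 (by norm_num), fun h2 => absurd h2.2.2 h⟩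

lemma iso_ann {p : List Z × List Z} (hp : Val p) (N : ℕ) :
    Ann (pol p * (X ^ Tf p - 1)) (iso p N) := by
  refine Ann.add ((ann_shift (pol_ann hp) N).mul_right _) ?_
  refine (ann_periodic fun n => ?_).mul_left _
  simp only [← add_assoc, Nat.add_mod_right]

theorem exists_iso {p : List ℤ × List ℤ} (hp : Val (cv p)) (N : ℕ) :
    ∃ w : List ℤ × List ℤ, Val (cv w) ∧ ∀ n, sq (cv w) n = iso (cv p) N n := by
  have hp1 := hp.2.1
  have hT := Tf_pos (cv p)
  have hm : (X ^ Tf (cv p) - 1 : ℤ[X]).Monic := monic_X_pow_sub_C 1 (by omega)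
  obtain ⟨w, h1, -, h2⟩ := exists_data (f := pol (cv p) * (X ^ Tf (cv p) - 1))
    ((pol_monic _).mul hm) (by
      rw [mul_coeff_zero]
      refine mul_ne_zero (pol_coeff hp) ?_
      rw [coeff_sub, coeff_X_pow, if_neg (by omega), coeff_one_zero]
      norm_num) (by
      rw [(pol_monic _).natDegree_mul hm, pol_natDegree]
      omega) (iso_ann hp N)
  exact ⟨w, h1, h2⟩

end Pool.Agent.Helper98.SK
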