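import Pool.Agent.Helper98.RA.Count

set_option autoImplicit false
set_option linter.unusedSectionVars false

/-!
# Randomised algorithms and lists of candidates: sharp form

A success probability of more than `1 / (k + 1)` gives lists of at most `k` candidates.
-/

namespace Pool.Agent.Helper98.SK

open Pool.Agent.Q49.EF Pool.Agent.Q328.AC Pool.Agent.Helper98.RA

variable {α : Type} [Primcodable α]

attribute [local irreducible] Nat.unpair Nat.pair

/-- the enumeration of the values of `M` at the stages at which the levels `1, ..., k` are reached -/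
def enum1 (k : ℕ) (L M : α × ℕ → ℕ) (z : α × ℕ) : Option ℕ :=
  cond (first L ((z.1, z.2 % k + 1), z.2 / k)) (some (M (z.1, z.2 / k))) none

lemma enum1_computable (k : ℕ) {L M : α × ℕ → ℕ} (hL : Computable L) (hM : Computable M) :
    Computable (enum1 k L M) := by
  have d : Computable fun z : α × ℕ => z.2 / k :=
    (Primrec.nat_div.comp Primrec.snd (Primrec.const k)).to_comp
  have m : Computable fun z : α × ℕ => z.2 % k + 1 :=
    (Primrec.succ.comp (Primrec.nat_mod.comp Primrec.snd (Primrec.const k))).to_comp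
  exact Computable.cond ((first_computable hL).comp (Computable.pair
    (Computable.pair Computable.fst m) d))
    (Computable.option_some.comp (hM.comp (Computable.pair Computable.fst d)))
    (Computable.const none)

lemma enum1_atMost {k : ℕ} (hk : 1 ≤ k) (L M : α × ℕ → ℕ) (a : α) : AtMost k (enum1 k L M) a := by
  classical
  refine ⟨(Finset.range k).image fun l =>
    if h : ∃ s, l + 1 ≤ L (a, s) then M (a, Nat.find h) else 0,
    Finset.card_image_le.trans (Finset.card_range _).le, fun n c hc => ?_⟩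
  rw [Finset.mem_image]
  unfold enum1 at hc
  cases h : first L ((a, n % k + 1), n / k) with
  | false => simp only [h, cond_false] at hc; exact absurd hc (by simp)
  | true =>
    simp only [h, cond_true, Option.some.injEq] at hc
    obtain ⟨h1, h2⟩ := first_iff.mp h
    refine ⟨n % k, Finset.mem_range.mpr (Nat.mod_lt _ (by omega)), ?_⟩
    have h3 : ∃ s, n % k + 1 ≤ L (a, s) := ⟨_, h1⟩
    rw [dif_pos h3, ← hc]
    congr 2
    refine le_antisymm (Nat.find_min' h3 h1) ?_
    by_contra h4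
    exact absurd (Nat.find_spec h3) (not_le.mpr (h2 _ (not_le.mp h4)))

/-- if the level `1` is reached then the value of `M` is listed at a stage `s` such that the level at no
stage is larger or the level at the stage `s` is at least `k` -/
lemma exists_enum1 {k : ℕ} (hk : 1 ≤ k) {L : α × ℕ → ℕ} (M : α × ℕ → ℕ) {a : α}
    (h1 : ∃ s, 1 ≤ L (a, s)) :
    ∃ s n, enum1 k L M (a, n) = some (M (a, s)) ∧ (k ≤ L (a, s) ∨ ∀ s', L (a, s') ≤ L (a, s)) := by
  classical
  obtain ⟨l, ⟨s₀, hs₀⟩, hl⟩ : ∃ l, (∃ s, l = min (L (a, s)) k) ∧ ∀ s, min (L (a, s)) k ≤ l := by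
    have hb : BddAbove (Set.range fun s => min (L (a, s)) k) := ⟨k, by
      rintro _ ⟨s, rfl⟩
      exact min_le_right _ _⟩
    have hne : (Set.range fun s => min (L (a, s)) k).Nonempty := ⟨_, ⟨0, rfl⟩⟩
    obtain ⟨s, hs⟩ := Nat.sSup_mem hne hb
    exact ⟨_, ⟨s, hs.symm⟩, fun s' => le_csSup hb ⟨s', rfl⟩⟩
  obtain ⟨s₁, hs₁⟩ := h1
  have h2 := hl s₁
  have h3 : ∃ s, l ≤ L (a, s) := ⟨s₀, hs₀ ▸ min_le_left _ _⟩
  have hl1 : 1 ≤ l := by omega
  have hlk : l ≤ k := hs₀ ▸ min_le_right _ _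
  have hsp := Nat.find_spec h3
  refine ⟨Nat.find h3, (l - 1) + k * Nat.find h3, ?_, ?_⟩
  · have e1 : ((l - 1) + k * Nat.find h3) % k + 1 = l := by
      rw [Nat.add_mul_mod_self_left, Nat.mod_eq_of_lt (by omega)]
      omega
    have e2 : ((l - 1) + k * Nat.find h3) / k = Nat.find h3 := by
      rw [Nat.add_mul_div_left _ _ (by omega : 0 < k), Nat.div_eq_of_lt (by omega), zero_add]
    unfold enum1
    simp only [e1, e2]
    have : first L ((a, l), Nat.find h3) = true :=
      first_iff.mpr ⟨hsp, fun s' hs' => not_le.mp (Nat.find_min h3 hs')⟩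
    rw [this, cond_true]
  · by_cases h4 : k ≤ L (a, Nat.find h3)
    · exact Or.inl h4
    · refine Or.inr fun s' => ?_
      have h5 := hl s'
      omega

/-- a probability of more than `δ` is attained at some stage -/
lemma of_prob_lt {R : α × (ℕ × ℕ) → Option ℕ} {a : α} {P : ℕ → Prop} {δ : ℝ}
    (h : δ < prob R a P) : ∃ n : ℕ,
      δ * 2 ^ n < {x : ℕ | x < 2 ^ n ∧ ∃ c, R (a, (n, x)) = some c ∧ P c}.ncard := by
  obtain ⟨n, hn⟩ := exists_lt_of_lt_ciSup h
  rw [lt_div_iff₀ (by positivity)] at hn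
  exact ⟨n, hn⟩

lemma lt_prob {R : α × (ℕ × ℕ) → Option ℕ} {a : α} {P : ℕ → Prop} {δ : ℝ} (n : ℕ)
    (h : δ * 2 ^ n < {x : ℕ | x < 2 ^ n ∧ ∃ c, R (a, (n, x)) = some c ∧ P c}.ncard) :
    δ < prob R a P := by
  refine lt_of_lt_of_le ?_ (le_ciSup (bdd R a P) n)
  rw [lt_div_iff₀ (by positivity)]
  exact h

open Classical in
/-- **From a randomised algorithm to a list of candidates**, sharp form. -/
theorem list_of_random_sharp {R : α × (ℕ × ℕ) → Option ℕ} (hR : IsRandomised R)
    {V : α → ℕ → Prop} (hV : ∀ a c c', V a c → c ≤ c' → V a c') {k : ℕ} (hk : 1 ≤ k) :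
    ∃ E : α × ℕ → Option ℕ, Computable E ∧ (∀ a, AtMost k E a) ∧
      ∀ a, 1 / ((k : ℝ) + 1) < prob R a (V a) → ∃ n c, E (a, n) = some c ∧ V a c := by
  refine ⟨enum1 k (level (k + 1) R) (largest R), enum1_computable k (level_computable _ hR.computable)
    (largest_computable hR.computable), fun a => enum1_atMost hk _ _ a, fun a hp => ?_⟩
  obtain ⟨n₀, hn₀⟩ := of_prob_lt hp
  set A : ℕ → Finset ℕ := fun n => (Finset.range (2 ^ n)).filter fun x =>
    (R (a, (n, x))).isSome = true with hA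
  set G : ℕ → Finset ℕ := fun n => (Finset.range (2 ^ n)).filter fun x =>
    ∃ c, R (a, (n, x)) = some c ∧ V a c with hG
  have hhalt : ∀ n, halt R (a, n) = (A n).card := fun n => by
    unfold halt
    rw [cnt_eq]
  rw [ncard_eq] at hn₀
  have hG0 : 2 ^ n₀ < (k + 1) * (G n₀).card := by
    have h1 : (0 : ℝ) < (k : ℝ) + 1 := by positivity
    rw [one_div_mul_eq_div, div_lt_iff₀ h1] at hn₀
    have h2 : ((2 ^ n₀ : ℕ) : ℝ) < (((k + 1) * (G n₀).card : ℕ) : ℝ) := by
      push_cast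
      calc (2 : ℝ) ^ n₀ < _ := hn₀
        _ = _ := by ring
    exact_mod_cast h2
  have hGA : ∀ n, (G n).card ≤ (A n).card := fun n => by
    refine Finset.card_le_card fun x hx => ?_
    obtain ⟨h1, c, h2, -⟩ := Finset.mem_filter.mp hx
    exact Finset.mem_filter.mpr ⟨h1, by rw [h2]; rfl⟩
  have hlev : ∀ n, level (k + 1) R (a, n) = (k + 1) * (A n).card / 2 ^ n := fun n => by
    unfold level
    rw [hhalt]
  obtain ⟨s, i, h1, h2⟩ := exists_enum1 (k := k) hk (L := level (k + 1) R) (largest R)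
    (a := a) ⟨n₀, by
      rw [hlev, Nat.le_div_iff_mul_le (by positivity), one_mul]
      exact hG0.le.trans (Nat.mul_le_mul_left _ (hGA n₀))⟩
  refine ⟨i, _, h1, ?_⟩
  by_contra hcon
  -- nothing good has halted at the stage `s`
  have h3 : ∀ x < 2 ^ s, ∀ c, R (a, (s, x)) = some c → ¬ V a c := by
    intro x hx c hc hVc
    refine hcon (hV a c _ hVc ?_)
    have h4 := le_mx (fun w : (α × ℕ) × ℕ => (R (w.1.1, (w.1.2, w.2))).getD 0) (a, s) hx
    simp only [hc, Option.getD_some] at h4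
    exact h4
  -- the stage `s + n₀`
  have h4 : 2 ^ s * (G n₀).card ≤ (G (n₀ + s)).card := by
    refine (card_ext n₀ s (G n₀) fun y hy => ?_).trans (Finset.card_le_card fun x hx => ?_)
    · exact Finset.mem_range.mp (Finset.mem_filter.mp hy).1
    · rw [Finset.mem_filter] at hx
      obtain ⟨hx1, hx2⟩ := hx
      obtain ⟨-, c, hc1, hc2⟩ := Finset.mem_filter.mp hx2
      exact Finset.mem_filter.mpr ⟨hx1, c, hR.mono s (Finset.mem_range.mp hx1) hc1, hc2⟩
  set O : Finset ℕ := (Finset.range (2 ^ (s + n₀))).filter fun x => x % 2 ^ s ∈ A s with hO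
  have h5 : 2 ^ n₀ * (A s).card ≤ O.card :=
    card_ext s n₀ (A s) fun y hy => Finset.mem_range.mp (Finset.mem_filter.mp hy).1
  have hOR : ∀ x ∈ O, ∃ c, R (a, (s + n₀, x)) = some c ∧ ¬ V a c := by
    intro x hx
    obtain ⟨hx1, hx2⟩ := Finset.mem_filter.mp hx
    obtain ⟨hx3, hx4⟩ := Finset.mem_filter.mp hx2
    obtain ⟨c, hc⟩ := Option.isSome_iff_exists.mp hx4
    exact ⟨c, hR.mono n₀ (Finset.mem_range.mp hx1) hc, h3 _ (Finset.mem_range.mp hx3) c hc⟩
  have h6 : O.card + (G (s + n₀)).card ≤ (A (s + n₀)).card := by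
    rw [← Finset.card_union_of_disjoint]
    · refine Finset.card_le_card fun x hx => ?_
      rw [Finset.mem_union] at hx
      rcases hx with hx | hx
      · obtain ⟨c, hc, -⟩ := hOR x hx
        exact Finset.mem_filter.mpr ⟨(Finset.mem_filter.mp hx).1, by rw [hc]; rfl⟩
      · obtain ⟨h7, c, hc, -⟩ := Finset.mem_filter.mp hx
        exact Finset.mem_filter.mpr ⟨h7, by rw [hc]; rfl⟩
    · rw [Finset.disjoint_left]
      intro x hx hx'
      obtain ⟨c, hc, hc'⟩ := hOR x hx
      obtain ⟨-, c', hc2, hc3⟩ := Finset.mem_filter.mp hx'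
      rw [hc] at hc2
      exact hc' (Option.some.inj hc2 ▸ hc3)
  have h7 : 2 ^ (s + n₀) * (level (k + 1) R (a, s) + 1) < (k + 1) * (A (s + n₀)).card := by
    have h8 : level (k + 1) R (a, s) * 2 ^ s ≤ (k + 1) * (A s).card := by
      rw [hlev]
      exact Nat.div_mul_le_self _ _
    rw [add_comm n₀ s] at h4
    calc 2 ^ (s + n₀) * (level (k + 1) R (a, s) + 1)
        = 2 ^ n₀ * (level (k + 1) R (a, s) * 2 ^ s) + 2 ^ s * 2 ^ n₀ := by rw [pow_add]; ring
      _ < 2 ^ n₀ * ((k + 1) * (A s).card) + 2 ^ s * ((k + 1) * (G n₀).card) :=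
          Nat.add_lt_add_of_le_of_lt (Nat.mul_le_mul_left _ h8)
            (Nat.mul_lt_mul_of_pos_left hG0 (by positivity))
      _ = (k + 1) * (2 ^ n₀ * (A s).card) + (k + 1) * (2 ^ s * (G n₀).card) := by ring
      _ ≤ (k + 1) * O.card + (k + 1) * (G (s + n₀)).card :=
          Nat.add_le_add (Nat.mul_le_mul_left _ h5) (Nat.mul_le_mul_left _ h4)
      _ = (k + 1) * (O.card + (G (s + n₀)).card) := by ring
      _ ≤ (k + 1) * (A (s + n₀)).card := Nat.mul_le_mul_left _ h6
  rcases h2 with h2 | h2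
  · have h8 : (A (s + n₀)).card ≤ 2 ^ (s + n₀) :=
      (Finset.card_filter_le _ _).trans (Finset.card_range _).le
    have h9 : (k + 1) * (A (s + n₀)).card ≤ (k + 1) * 2 ^ (s + n₀) := Nat.mul_le_mul_left _ h8
    have h10 : 2 ^ (s + n₀) * (k + 1) ≤ 2 ^ (s + n₀) * (level (k + 1) R (a, s) + 1) :=
      Nat.mul_le_mul_left _ (by omega)
    rw [mul_comm] at h10
    omega
  · have h8 : level (k + 1) R (a, s) + 1 ≤ level (k + 1) R (a, s + n₀) := by
      rw [hlev (s + n₀), Nat.le_div_iff_mul_le (by positivity), mul_comm]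
      exact h7.le
    have h9 := h2 (s + n₀)
    omega

/-- the probabilities of a modified algorithm, strict form -/
lemma prob_transfer_lt {R R' : α × (ℕ × ℕ) → Option ℕ} (hR : IsRandomised R) {a : α}
    {P P' : ℕ → Prop} {δ : ℝ} (h : δ < prob R a P) (d : ℕ)
    (hd : ∀ n x c, d ≤ n → R (a, (n, x)) = some c → P c → ∃ c', R' (a, (n, x)) = some c' ∧ P' c') :
    δ < prob R' a P' := by
  classical
  obtain ⟨n, hn⟩ := of_prob_lt h
  refine lt_prob (n + d) ?_
  have h1 := card_ext n d ((Finset.range (2 ^ n)).filter fun x => ∃ c, R (a, (n, x)) = some c ∧ P c)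
    fun y hy => Finset.mem_range.mp (Finset.mem_filter.mp hy).1
  rw [← ncard_eq] at h1
  have h2 : ((Finset.range (2 ^ (n + d))).filter fun x => x % 2 ^ n ∈
      ((Finset.range (2 ^ n)).filter fun x => ∃ c, R (a, (n, x)) = some c ∧ P c)).card ≤
      {x : ℕ | x < 2 ^ (n + d) ∧ ∃ c, R' (a, (n + d, x)) = some c ∧ P' c}.ncard := by
    rw [ncard_eq]
    refine Finset.card_le_card fun x hx => ?_
    rw [Finset.mem_filter] at hx
    obtain ⟨hx1, hx2⟩ := hx
    obtain ⟨-, c, hc1, hc2⟩ := Finset.mem_filter.mp hx2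
    exact Finset.mem_filter.mpr ⟨hx1, hd _ _ c (Nat.le_add_left _ _)
      (hR.mono d (Finset.mem_range.mp hx1) hc1) hc2⟩
  have h3 := h1.trans h2
  have h4 : (2 : ℝ) ^ d * ({x : ℕ | x < 2 ^ n ∧ ∃ c, R (a, (n, x)) = some c ∧ P c}.ncard : ℝ) ≤
      ({x : ℕ | x < 2 ^ (n + d) ∧ ∃ c, R' (a, (n + d, x)) = some c ∧ P' c}.ncard : ℝ) := by
    exact_mod_cast h3
  refine lt_of_lt_of_le ?_ h4
  rw [pow_add]
  have h5 : (0 : ℝ) < 2 ^ d := by positivity
  nlinarith

/-- **From randomised counting to randomised bounds.** -/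
theorem bound_of_count_lt {p : α × ℕ → Bool} (hp : Computable p)
    (hfin : ∀ a, {x | p (a, x) = true}.Finite) {u : α × ℕ → ℕ} (hu : Computable u)
    {R : α × (ℕ × ℕ) → Option ℕ} (hR : IsRandomised R)
    {V : α → ℕ → Prop} (hV : ∀ a t, (∀ x, p (a, x) = true → x < t) → V a (mx u a t)) :
    ∃ R' : α × (ℕ × ℕ) → Option ℕ, IsRandomised R' ∧ ∀ a (δ : ℝ),
      δ < prob R a (fun m => {x | p (a, x) = true}.ncard = m) → δ < prob R' a (V a) := by
  classical
  refine ⟨guess p u R, guess_random hp hu hR, fun a δ h => ?_⟩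
  obtain ⟨T, hT⟩ := exists_cnt_eq (hfin a)
  refine prob_transfer_lt hR h (T + 1) fun n x m hn h1 h2 => ?_
  have h3 : ∃ t, cnt p a t = m := ⟨T, (hT T le_rfl).trans h2⟩
  have h4 : Nat.find h3 ≤ T := Nat.find_min' h3 ((hT T le_rfl).trans h2)
  refine ⟨_, guess_iff.mpr ⟨m, h1, Nat.find h3, by omega, Nat.find_spec h3,
    fun t' ht' => Nat.find_min h3 ht', rfl⟩, hV a _ fun y hy => ?_⟩
  exact lt_of_cnt_eq (hfin a) ((Nat.find_spec h3).trans h2.symm) hy

end Pool.Agent.Helper98.SK
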