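import Pool.Agent.Helper98.SK.Part
import Pool.Agent.Helper98.SK.Rnd

set_option autoImplicit false

/-!
# Deciding the existence of zeros and bounding the isolated zeros
-/

namespace Pool.Agent.Helper98.SK

open Polynomial Finset Pool.Agent.H692R2.USS Pool.Agent.TH997.US Pool.Agent.TH997.SP
open Pool.Agent.Helper446.RE (cp_eq cp_le cp_lt cp_comp cite computable_of_graph)
open Pool.Agent.Helper98.RA Pool.Agent.Q49.EF Pool.Agent.Q328.AC
open scoped Classical

attribute [local irreducible] Nat.unpair Nat.pair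

theorem cp_sq1 {β : Type} [Primcodable β] {p q : β → List Z × List Z} {m n : β → ℕ}
    (hp : Computable p) (hq : Computable q) (hm : Computable m) (hn : Computable n) :
    ComputablePred fun x => sq (p x) (m x) = sq (q x) (n x) + 1 := by
  have h1 := cvv hp hm
  have h2 := cvv hq hn
  have h : ComputablePred fun x => (vv (p x) (m x)).1 + (vv (q x) (n x)).2 =
      (vv (q x) (n x)).1 + (vv (p x) (m x)).2 + 1 := cp_eq (by fun_prop) (by fun_prop)
  refine h.of_eq fun x => ?_
  rw [sq_eq, sq_eq]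
  unfold iv
  omega

/-- valid data of order at most `d` of a sequence with a zero -/
def HasZero (d : ℕ∞) (p : List ℤ × List ℤ) : Prop := Q d p ∧ ∃ n, sq (cv p) n = 0

theorem spor_bound (p : List ℤ × List ℤ) : ∃ N, ∀ n, Spor (cv p) n → n < N := by
  by_contra hcon
  push Not at hcon
  have h1 : ∀ k, ∃ N, k ≤ ((range N).filter fun n => Spor (cv p) n).card := by
    intro k
    induction k with
    | zero => exact ⟨0, Nat.zero_le _⟩
    | succ k ih =>
      obtain ⟨N, hN⟩ := ih
      obtain ⟨n, h2, h3⟩ := hcon N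
      refine ⟨n + 1, ?_⟩
      have h4 : insert n ((range N).filter fun n => Spor (cv p) n) ⊆
          (range (n + 1)).filter fun n => Spor (cv p) n := by
        intro x hx
        rw [Finset.mem_insert] at hx
        rw [Finset.mem_filter, Finset.mem_range]
        rcases hx with rfl | hx
        · exact ⟨Nat.lt_succ_self _, h2⟩
        · rw [Finset.mem_filter, Finset.mem_range] at hx
          exact ⟨by omega, hx.2⟩
      have h5 := Finset.card_le_card h4
      rw [Finset.card_insert_of_notMem (by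
        rw [Finset.mem_filter, Finset.mem_range]
        omega)] at h5
      omega
  obtain ⟨N, hN⟩ := h1 (Bd (cv p) + 1)
  have := count (cv p) N
  omega

theorem spor_finite (p : List ℤ × List ℤ) : {n | Spor (cv p) n}.Finite := by
  obtain ⟨N, hN⟩ := spor_bound p
  exact (Set.finite_lt_nat N).subset hN

theorem spor_ncard (p : List ℤ × List ℤ) : {n | Spor (cv p) n}.ncard ≤ Bd (cv p) := by
  obtain ⟨N, hN⟩ := spor_bound p
  refine le_trans (le_of_eq ?_) (count (cv p) N)
  rw [← Set.ncard_coe_finset]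
  congr 1
  ext n
  simp only [Set.mem_ofPred_eq, Finset.coe_filter, Finset.mem_range]
  exact ⟨fun h => ⟨hN n h, h⟩, fun h => h.2⟩

/-! ### from a decision algorithm to bounds -/

/-- the sequence with the number `i` agrees with `iso p N` (as far as it has to be tested) -/
def IsIso (p : List ℤ × List ℤ) (N i : ℕ) : Prop :=
  Val (cv p) → Val (cv (dat i)) ∧ ∀ n < (cv (dat i)).1.length + ((cv p).1.length + Tf (cv p)),
    sq (cv (dat i)) n = iso (cv p) N n

theorem isIso_exists (x : (List ℤ × List ℤ) × ℕ) : ∃ i, IsIso x.1 x.2 i := by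
  by_cases hp : Val (cv x.1)
  · obtain ⟨w, h1, h2⟩ := exists_iso hp x.2
    refine ⟨Encodable.encode w, fun _ => ?_⟩
    rw [dat_encode]
    exact ⟨h1, fun n _ => h2 n⟩
  · exact ⟨0, fun h => absurd h hp⟩

theorem isIso_eq {p : List ℤ × List ℤ} {N i : ℕ} (hp : Val (cv p)) (h : IsIso p N i) :
    Val (cv (dat i)) ∧ ∀ n, sq (cv (dat i)) n = iso (cv p) N n := by
  obtain ⟨h1, h2⟩ := h hp
  have hm : (X ^ Tf (cv p) - 1 : ℤ[X]).Monic := monic_X_pow_sub_C 1 (by
    have := Tf_pos (cv p)
    omega)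
  have hdeg : (X ^ Tf (cv p) - 1 : ℤ[X]).natDegree = Tf (cv p) := natDegree_X_pow_sub_C
  refine ⟨h1, eq_of_eq (pol_monic (cv (dat i))) ((pol_monic (cv p)).mul hm) (pol_ann h1)
    (iso_ann hp N) ?_⟩
  rw [(pol_monic _).natDegree_mul hm, hdeg, pol_natDegree, pol_natDegree]
  exact h2

theorem cp_isIso : ComputablePred fun x : ((List ℤ × List ℤ) × ℕ) × ℕ => IsIso x.1.1 x.1.2 x.2 := by
  have c1 : Computable fun x : ((List ℤ × List ℤ) × ℕ) × ℕ => cv x.1.1 :=
    computable_cv.comp (Computable.fst.comp Computable.fst)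
  have c2 : Computable fun x : ((List ℤ × List ℤ) × ℕ) × ℕ => dat x.2 :=
    dat_computable.comp Computable.snd
  have c3 : Computable fun x : ((List ℤ × List ℤ) × ℕ) × ℕ => cv (dat x.2) := computable_cv.comp c2
  have cT : Computable fun x : ((List ℤ × List ℤ) × ℕ) × ℕ => Tf (cv x.1.1) := cTf.comp c1
  refine cp_imp (cp_comp cp_val c1) (cp_and (cp_comp cp_val c3) ?_)
  have hl : Computable fun x : ((List ℤ × List ℤ) × ℕ) × ℕ =>
      (cv (dat x.2)).1.length + ((cv x.1.1).1.length + Tf (cv x.1.1)) :=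
    Primrec.nat_add.to_comp.comp (Computable.list_length.comp (Computable.fst.comp c3))
      (Primrec.nat_add.to_comp.comp (Computable.list_length.comp (Computable.fst.comp c1)) cT)
  refine cp_all (p := fun (x : ((List ℤ × List ℤ) × ℕ) × ℕ) n =>
    sq (cv (dat x.2)) n = iso (cv x.1.1) x.1.2 n) ?_ hl
  -- `y = (x, n)`
  have d1 : Computable fun y : (((List ℤ × List ℤ) × ℕ) × ℕ) × ℕ => cv y.1.1.1 :=
    c1.comp Computable.fst
  have d3 : Computable fun y : (((List ℤ × List ℤ) × ℕ) × ℕ) × ℕ => cv (dat y.1.2) :=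
    c3.comp Computable.fst
  have dT : Computable fun y : (((List ℤ × List ℤ) × ℕ) × ℕ) × ℕ => Tf (cv y.1.1.1) :=
    cT.comp Computable.fst
  have dn : Computable fun y : (((List ℤ × List ℤ) × ℕ) × ℕ) × ℕ => y.1.1.2 + y.2 := by fun_prop
  have f1 : ComputablePred fun y : (((List ℤ × List ℤ) × ℕ) × ℕ) × ℕ =>
      nz (cv y.1.1.1) ((y.1.1.2 + y.2) % Tf (cv y.1.1.1)) :=
    cp_comp cp_nz (f := fun y : (((List ℤ × List ℤ) × ℕ) × ℕ) × ℕ =>
      (cv y.1.1.1, (y.1.1.2 + y.2) % Tf (cv y.1.1.1))) (d1.pair (by fun_prop))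
  have f2 := cp_sq d3 d1 Computable.snd dn
  have f3 := cp_sq1 d3 d1 Computable.snd dn
  refine (cp_and (cp_imp f1 f2) (cp_imp f1.not f3)).of_eq fun y => ?_
  unfold iso
  by_cases h : nz (cv y.1.1.1) ((y.1.1.2 + y.2) % Tf (cv y.1.1.1))
  · simp only [h, forall_true_left, not_true_eq_false, false_implies, and_true, if_true, add_zero]
  · simp only [h, forall_true_left, not_false_eq_true, false_implies, true_and, if_false]

theorem bound_of_dec (h : ComputablePred (HasZero ⊤)) :
    ∃ B : List ℤ × List ℤ → ℕ, Computable B ∧ ∀ p, V p (B p) := by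
  obtain ⟨W, hW, hW'⟩ := search' cp_isIso isIso_exists
  have h1 : ComputablePred fun x : (List ℤ × List ℤ) × ℕ => Val (cv x.1) → ¬ HasZero ⊤ (dat (W x)) :=
    cp_imp (cp_valc Computable.fst) (cp_comp h (dat_computable.comp hW)).not
  obtain ⟨B, hB, hB'⟩ := search' (P := fun (p : List ℤ × List ℤ) N =>
    Val (cv p) → ¬ HasZero ⊤ (dat (W (p, N)))) h1 fun p => by
      obtain ⟨N, hN⟩ := spor_bound p
      refine ⟨N, fun hp => ?_⟩
      rintro ⟨-, n, hn⟩
      obtain ⟨-, h3⟩ := isIso_eq hp (hW' (p, N))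
      rw [h3, iso_eq_zero hp] at hn
      have := hN _ hn
      omega
  refine ⟨B, hB, fun p n hn => ?_⟩
  by_contra hcon
  have hp := hn.1
  obtain ⟨h2, h3⟩ := isIso_eq hp (hW' (p, B p))
  refine hB' p hp ⟨⟨h2, le_top⟩, n - B p, ?_⟩
  rw [h3, iso_eq_zero hp]
  rwa [show B p + (n - B p) = n by omega]

theorem dec_of_bound {d : ℕ∞} {B : List ℤ × List ℤ → ℕ} (hB : Computable B)
    (h : ∀ p, Q d p → V p (B p)) : ComputablePred (HasZero d) := by
  have h1 : ComputablePred (fun p : List ℤ × List ℤ => Q d p ∧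
      ((∃ n < B p + 1, Spor (cv p) n) ∨ ∃ r < Tf (cv p), ¬ nz (cv p) r)) := by
    refine cp_and (cp_Q d Computable.id) (cp_or ?_ ?_)
    · refine cp_ex (p := fun (p : List ℤ × List ℤ) n => Spor (cv p) n) ?_
        (Computable.succ.comp hB)
      exact cp_comp cp_Spor (f := fun x : (List ℤ × List ℤ) × ℕ => (cv x.1, x.2))
        ((computable_cv.comp Computable.fst).pair Computable.snd)
    · refine cp_ex (p := fun (p : List ℤ × List ℤ) r => ¬ nz (cv p) r) ?_ (cTf.comp computable_cv)
      exact ComputablePred.not (cp_comp cp_nz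
        (f := fun x : (List ℤ × List ℤ) × ℕ => (cv x.1, x.2))
        ((computable_cv.comp Computable.fst).pair Computable.snd))
  refine h1.of_eq fun p => ?_
  refine and_congr_right fun hp => ?_
  constructor
  · rintro (⟨n, _, h3⟩ | ⟨r, hr, h2⟩)
    · exact ⟨n, (iv_eq_zero _).2 h3.2.1⟩
    · exact ⟨_, zero_class hp.1 h2 0⟩
  · rintro ⟨n, h3⟩
    by_cases hz : nz (cv p) (n % Tf (cv p))
    · have hS : Spor (cv p) n := ⟨hp.1, (iv_eq_zero _).1 h3, hz⟩
      exact Or.inl ⟨n, Nat.lt_succ_of_le (h p hp n hS), hS⟩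
    · exact Or.inr ⟨n % Tf (cv p), Nat.mod_lt _ (Tf_pos (cv p)), hz⟩

/-! ### lists -/

/-- the algorithm which decides whether `n` is an isolated zero -/
theorem exists_pb : ∃ pb : (List ℤ × List ℤ) × ℕ → Bool, Computable pb ∧
    ∀ p n, pb (p, n) = true ↔ Spor (cv p) n := by
  have h : ComputablePred fun x : (List ℤ × List ℤ) × ℕ => Spor (cv x.1) x.2 :=
    cp_comp cp_Spor (f := fun x : (List ℤ × List ℤ) × ℕ => (cv x.1, x.2))
        ((computable_cv.comp Computable.fst).pair Computable.snd)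
  obtain ⟨pb, h1, h2⟩ := ComputablePred.computable_iff.mp h
  exact ⟨pb, h1, fun p n => (iff_of_eq (congrFun h2 (p, n))).symm⟩

/-- candidates for the number of isolated zeros give candidates for a bound -/
theorem lists_of_numbers {E : (List ℤ × List ℤ) × ℕ → Option ℕ} (hE : Computable E) :
    ∃ E' : (List ℤ × List ℤ) × ℕ → Option ℕ, Computable E' ∧ ∀ p k, AtMost k E p →
      (∃ n, E (p, n) = some {n | Spor (cv p) n}.ncard) →
      AtMost k E' p ∧ ∃ n c, E' (p, n) = some c ∧ V p c := by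
  obtain ⟨pb, h1, h2⟩ := exists_pb
  have hc : Computable fun y : (List ℤ × List ℤ) × ℕ => cnt pb y.1 y.2 := cnt_computable h1
  set P : (List ℤ × List ℤ) × ℕ → Prop := fun z =>
    E (z.1, z.2.unpair.1) = some (cnt pb z.1 z.2.unpair.2) ∧
      ∀ t < z.2.unpair.2, cnt pb z.1 t ≠ cnt pb z.1 z.2.unpair.2 with hP
  have hcP : ComputablePred P := by
    have u1 : Computable fun z : (List ℤ × List ℤ) × ℕ => z.2.unpair.1 :=
      (Primrec.fst.comp (Primrec.unpair.comp Primrec.snd)).to_comp
    have u2 : Computable fun z : (List ℤ × List ℤ) × ℕ => z.2.unpair.2 :=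
      (Primrec.snd.comp (Primrec.unpair.comp Primrec.snd)).to_comp
    have c2 : Computable fun z : (List ℤ × List ℤ) × ℕ => cnt pb z.1 z.2.unpair.2 :=
      Computable.comp (f := fun y : (List ℤ × List ℤ) × ℕ => cnt pb y.1 y.2) hc
        (Computable.pair Computable.fst u2)
    refine cp_and (cp_eq (hE.comp (Computable.pair Computable.fst u1))
      (Computable.option_some.comp c2)) ?_
    refine cp_all (p := fun (z : (List ℤ × List ℤ) × ℕ) t =>
      cnt pb z.1 t ≠ cnt pb z.1 z.2.unpair.2) ?_ u2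
    refine ComputablePred.not (cp_eq ?_ (c2.comp Computable.fst))
    exact Computable.comp (f := fun y : (List ℤ × List ℤ) × ℕ => cnt pb y.1 y.2) hc
        (Computable.pair (Computable.fst.comp Computable.fst) Computable.snd)
  refine ⟨fun z => if P z then some z.2.unpair.2 else none, cite hcP (Computable.option_some.comp
    (Primrec.snd.comp (Primrec.unpair.comp Primrec.snd)).to_comp) (Computable.const none),
    ?_⟩
  rintro p k ⟨S, hS, h3⟩ ⟨n, h4⟩
  refine ⟨⟨S.image fun m => if h : ∃ t, cnt pb p t = m then Nat.find h else 0,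
    Finset.card_image_le.trans hS, fun j c hj => ?_⟩, ?_⟩
  · simp only at hj
    split_ifs at hj with h5
    rw [Option.some.injEq] at hj
    obtain ⟨h6, h7⟩ := h5
    simp only at h6 h7
    rw [Finset.mem_image]
    refine ⟨_, h3 _ _ h6, ?_⟩
    have h8 : ∃ t, cnt pb p t = cnt pb p j.unpair.2 := ⟨_, rfl⟩
    rw [dif_pos h8, ← hj]
    refine le_antisymm (Nat.find_min' h8 rfl) ?_
    by_contra h9
    exact h7 _ (not_le.mp h9) (Nat.find_spec h8)
  · have hset : {x | pb (p, x) = true} = {n | Spor (cv p) n} := Set.ext fun x => h2 p x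
    have hfin : {x | pb (p, x) = true}.Finite := hset ▸ spor_finite p
    obtain ⟨T, hT⟩ := exists_cnt_eq hfin
    have h5 : ∃ t, cnt pb p t = {n | Spor (cv p) n}.ncard := ⟨T, by rw [hT T le_rfl, hset]⟩
    refine ⟨Nat.pair n (Nat.find h5), Nat.find h5, ?_, fun x hx => ?_⟩
    · have h6 : P (p, Nat.pair n (Nat.find h5)) := by
        rw [hP]
        simp only [Nat.unpair_pair]
        refine ⟨by rw [h4, Nat.find_spec h5], fun t ht h6 => ?_⟩
        exact Nat.find_min h5 ht (h6.trans (Nat.find_spec h5))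
      change (if P (p, Nat.pair n (Nat.find h5)) then some (Nat.unpair (Nat.pair n
        (Nat.find h5))).2 else none) = _
      rw [if_pos h6, Nat.unpair_pair]
    · have h6 : cnt pb p (Nat.find h5) = {x | pb (p, x) = true}.ncard := by
        rw [hset]
        exact Nat.find_spec h5
      exact (lt_of_cnt_eq hfin h6 ((h2 p x).mpr hx)).le

end Pool.Agent.Helper98.SK
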