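import Pool.Agent.Helper98.RA.Count

set_option autoImplicit false
set_option linter.unusedSectionVars false

/-!
# Candidates for common bounds of tuples

If an algorithm lists for every `k`-tuple at most `k` numbers, one of which is a bound for all members
of the tuple, then bounds can be computed.
-/

namespace Pool.Agent.Helper98.SK

open Pool.Agent.Q49.EF Pool.Agent.Q328.AC Pool.Agent.Helper98.RA

variable {β : Type} [Primcodable β]

attribute [local irreducible] Nat.unpair Nat.pair

/-- refutation of a common bound -/
def rl (r : (β × ℕ) × ℕ → Bool) (z : (List β × ℕ) × ℕ) : Bool :=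
  ((z.1.1[z.2.unpair.1]?).map fun b => r ((b, z.1.2), z.2.unpair.2)).getD false

lemma rl_computable {r : (β × ℕ) × ℕ → Bool} (hr : Computable r) : Computable (rl r) := by
  have u1 : Computable fun z : (List β × ℕ) × ℕ => z.2.unpair.1 :=
    Computable.fst.comp (Computable.unpair.comp Computable.snd)
  have u2 : Computable fun z : ((List β × ℕ) × ℕ) × β => z.1.2.unpair.2 :=
    Computable.snd.comp (Computable.unpair.comp (Computable.snd.comp Computable.fst))
  have e1 : Computable fun z : (List β × ℕ) × ℕ => z.1.1[z.2.unpair.1]? :=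
    Computable.list_getElem?.comp (Computable.fst.comp Computable.fst) u1
  have e2 : Computable₂ fun (z : (List β × ℕ) × ℕ) (b : β) => r ((b, z.1.2), z.2.unpair.2) :=
    hr.comp (Computable.pair (Computable.pair Computable.snd
      (Computable.snd.comp (Computable.fst.comp Computable.fst))) u2)
  exact Computable.option_getD (Computable.option_map e1 e2) (Computable.const false)

lemma rl_iff {r : (β × ℕ) × ℕ → Bool} {V : β → ℕ → Prop}
    (hV : ∀ b c, ¬ V b c ↔ ∃ t, r ((b, c), t) = true) (s : List β) (c : ℕ) :
    (¬ ∀ b ∈ s, V b c) ↔ ∃ t, rl r ((s, c), t) = true := by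
  push Not
  constructor
  · rintro ⟨b, hb, h1⟩
    obtain ⟨t, ht⟩ := (hV b c).mp h1
    obtain ⟨i, hi⟩ := List.mem_iff_getElem?.mp hb
    refine ⟨Nat.pair i t, ?_⟩
    unfold rl
    simp only [Nat.unpair_pair, hi, Option.map_some, Option.getD_some, ht]
  · rintro ⟨t, ht⟩
    unfold rl at ht
    simp only at ht
    cases h : s[t.unpair.1]? with
    | none =>
      rw [h] at ht
      simp at ht
    | some b =>
      rw [h] at ht
      simp only [Option.map_some, Option.getD_some] at ht
      exact ⟨b, List.mem_iff_getElem?.mpr ⟨_, h⟩, (hV b c).mpr ⟨_, ht⟩⟩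

/-- **Few candidates for common bounds are enough.** -/
theorem bound_of_tuples {V : β → ℕ → Prop} {r : (β × ℕ) × ℕ → Bool} (hr : Computable r)
    (hV : ∀ b c, ¬ V b c ↔ ∃ t, r ((b, c), t) = true) {dat : ℕ → β} (hdat : Computable dat)
    (hsurj : Function.Surjective dat) (j : ℕ) :
    ∀ E : List β × ℕ → Option ℕ, Computable E →
      (∀ s, s.length = j + 1 → AtMost (j + 1) E s ∧ ∃ n c, E (s, n) = some c ∧ ∀ b ∈ s, V b c) →
      ∃ f : β → ℕ, Computable f ∧ ∀ b, V b (f b) := by
  induction j with
  | zero =>
    intro E hE h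
    have hs : Computable fun b : β => [b] :=
      Computable.list_cons.comp Computable.id (Computable.const [])
    have h1 : Computable fun z : β × ℕ => (E ([z.1], z.2)).isSome :=
      Primrec.option_isSome.to_comp.comp (hE.comp (Computable.pair (hs.comp Computable.fst)
        Computable.snd))
    obtain ⟨n₁, hn₁, hn₁'⟩ := search h1 fun b => by
      obtain ⟨-, n, c, h2, -⟩ := h [b] rfl
      exact ⟨n, by rw [h2]; rfl⟩
    refine ⟨fun b => (E ([b], n₁ b)).getD 0, Computable.option_getD
      (hE.comp (Computable.pair hs hn₁)) (Computable.const 0), fun b => ?_⟩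
    obtain ⟨⟨S, hS, h2⟩, n, c, h3, h4⟩ := h [b] rfl
    obtain ⟨d, hd⟩ := Option.isSome_iff_exists.mp (hn₁' b)
    simp only [hd, Option.getD_some]
    have h5 : d = c := Finset.card_le_one.mp hS d (h2 _ _ hd) c (h2 _ _ h3)
    rw [h5]
    exact h4 b (List.mem_singleton.mpr rfl)
  | succ j ih =>
    intro E hE h
    -- the first candidate
    have b1 : Computable fun z : List β × ℕ => (z.1.length == j + 1 + 1) :=
      Primrec.beq.to_comp.comp (Computable.list_length.comp Computable.fst) (Computable.const _)
    have h1 : Computable fun z : List β × ℕ => !(z.1.length == j + 1 + 1) || (E z).isSome :=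
      Primrec.or.to_comp.comp (Primrec.not.to_comp.comp b1) (Primrec.option_isSome.to_comp.comp hE)
    obtain ⟨n₁, hn₁, hn₁'⟩ := search h1 fun s => by
      by_cases hs : s.length = j + 1 + 1
      · obtain ⟨-, n, c, h2, -⟩ := h s hs
        exact ⟨n, by simp [h2]⟩
      · exact ⟨0, by simp [hs]⟩
    set c₁ : List β → ℕ := fun s => (E (s, n₁ s)).getD 0 with hc₁
    have hc : Computable c₁ := Computable.option_getD
      (hE.comp (Computable.pair Computable.id hn₁)) (Computable.const 0)
    have hc1 : ∀ s, s.length = j + 1 + 1 → E (s, n₁ s) = some (c₁ s) := by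
      intro s hs
      have h2 := hn₁' s
      rw [Bool.or_eq_true, Bool.not_eq_true', beq_eq_false_iff_ne] at h2
      obtain ⟨d, hd⟩ := Option.isSome_iff_exists.mp (h2.resolve_left fun h3 => h3 hs)
      rw [hc₁]
      simp only [hd, Option.getD_some]
    by_cases hA : ∃ s : List β, s.length = j + 1 ∧ ∀ b, V b (c₁ (b :: s))
    · obtain ⟨s, hs, hs'⟩ := hA
      exact ⟨fun b => c₁ (b :: s), hc.comp (Computable.list_cons.comp Computable.id
        (Computable.const s)), hs'⟩
    · push Not at hA
      -- a member for which it is wrong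
      have e0 : Computable fun z : List β × ℕ => dat z.2.unpair.1 :: z.1 :=
        Computable.list_cons.comp (hdat.comp (Computable.fst.comp
          (Computable.unpair.comp Computable.snd))) Computable.fst
      have u2 : Computable fun z : List β × ℕ => z.2.unpair.2 :=
        Computable.snd.comp (Computable.unpair.comp Computable.snd)
      have b2 : Computable fun z : List β × ℕ => (z.1.length == j + 1) :=
        Primrec.beq.to_comp.comp (Computable.list_length.comp Computable.fst) (Computable.const _)
      have e1 : Computable fun z : List β × ℕ => !(z.1.length == j + 1) ||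
          rl r ((dat z.2.unpair.1 :: z.1, c₁ (dat z.2.unpair.1 :: z.1)), z.2.unpair.2) :=
        Primrec.or.to_comp.comp (Primrec.not.to_comp.comp b2) ((rl_computable hr).comp
          (Computable.pair (Computable.pair e0 (hc.comp e0)) u2))
      obtain ⟨y, hy, hy'⟩ := search e1 fun s => by
        by_cases hs : s.length = j + 1
        · obtain ⟨b, hb⟩ := hA s hs
          obtain ⟨i, rfl⟩ := hsurj b
          obtain ⟨t, ht⟩ := (rl_iff hV (dat i :: s) (c₁ (dat i :: s))).mp fun h2 =>
            hb (h2 _ List.mem_cons_self)
          exact ⟨Nat.pair i t, by simp only [Nat.unpair_pair, ht, Bool.or_true]⟩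
        · exact ⟨0, by simp [hs]⟩
      set t : List β → List β := fun s => dat (y s).unpair.1 :: s with ht
      have htc : Computable t := Computable.list_cons.comp (hdat.comp (Computable.fst.comp
        (Computable.unpair.comp hy))) Computable.id
      have hwrong : ∀ s, s.length = j + 1 → ¬ ∀ b ∈ t s, V b (c₁ (t s)) := by
        intro s hs
        have h2 := hy' s
        simp only [Bool.or_eq_true, Bool.not_eq_true', beq_eq_false_iff_ne] at h2
        exact (rl_iff hV _ _).mpr ⟨_, h2.resolve_left fun h3 => h3 hs⟩
      refine ih (rem E t c₁) (rem_computable hE htc hc) fun s hs => ?_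
      have hts : (t s).length = j + 1 + 1 := by rw [ht, List.length_cons, hs]
      obtain ⟨⟨S, hS, h2⟩, n, c, h3, h4⟩ := h (t s) hts
      refine ⟨⟨S.erase (c₁ (t s)), ?_, fun n d hd => ?_⟩, n, c, ?_, ?_⟩
      · rw [Finset.card_erase_of_mem (h2 _ _ (hc1 (t s) hts))]
        omega
      · obtain ⟨h5, h6⟩ := rem_eq.mp hd
        exact Finset.mem_erase.mpr ⟨h6, h2 _ _ h5⟩
      · refine rem_eq.mpr ⟨h3, ?_⟩
        rintro rfl
        exact hwrong s hs h4
      · exact fun b hb => h4 b (List.mem_cons_of_mem _ hb)

end Pool.Agent.Helper98.SK
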