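import Pool.Agent.Helper98.SK.Code
import Pool.Agent.Helper98.SK.Tup

set_option autoImplicit false

/-!
# Few candidates for bounds for the isolated zeros
-/

namespace Pool.Agent.Helper98.SK

open Polynomial Finset Pool.Agent.H692R2.USS Pool.Agent.TH997.US Pool.Agent.TH997.SP
open Pool.Agent.Helper446.RE (cp_eq cp_le cp_lt cp_comp cite computable_of_graph)
open Pool.Agent.Helper98.RA
open scoped Classical

theorem search' {β : Type} [Primcodable β] {P : β → ℕ → Prop}
    (hP : ComputablePred fun x : β × ℕ => P x.1 x.2) (h : ∀ a, ∃ n, P a n) :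
    ∃ f : β → ℕ, Computable f ∧ ∀ a, P a (f a) :=
  ⟨fun a => Nat.find (h a), Computable.find hP h, fun a => Nat.find_spec (h a)⟩

theorem cp_imp {β : Type} [Primcodable β] {p q : β → Prop} (hp : ComputablePred p)
    (hq : ComputablePred q) : ComputablePred fun x => p x → q x :=
  (cp_or hp.not hq).of_eq fun _ => imp_iff_not_or.symm

theorem cp_sq {β : Type} [Primcodable β] {p q : β → List Z × List Z} {m n : β → ℕ}
    (hp : Computable p) (hq : Computable q) (hm : Computable m) (hn : Computable n) :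
    ComputablePred fun x => sq (p x) (m x) = sq (q x) (n x) := by
  have h1 := cvv hp hm
  have h2 := cvv hq hn
  have h : ComputablePred fun x => (vv (p x) (m x)).1 + (vv (q x) (n x)).2 =
      (vv (q x) (n x)).1 + (vv (p x) (m x)).2 := cp_eq (by fun_prop) (by fun_prop)
  refine h.of_eq fun x => ?_
  rw [sq_eq, sq_eq]
  unfold iv
  omega

/-- the part of the sequence `w` in the class of `r` modulo `k` agrees with `a` (as far as it has to be
tested) -/
def Part (k r : ℕ) (w a : List ℤ × List ℤ) : Prop :=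
  ∀ n < (cv w).1.length + (cv a).1.length, sq (cv w) (r + k * n) = sq (cv a) n

theorem part_iff {k r : ℕ} {w a : List ℤ × List ℤ} (hw : Val (cv w)) (ha : Val (cv a)) :
    Part k r w a ↔ ∀ n, sq (cv w) (r + k * n) = sq (cv a) n := by
  refine ⟨fun h => ?_, fun h n _ => h n⟩
  obtain ⟨g, h1, h2, h3⟩ := decim (pol_monic (cv w)) k
  refine eq_of_eq h1 (pol_monic (cv a)) (h3 _ (pol_ann hw) r) (pol_ann ha) ?_
  rw [h2, pol_natDegree, pol_natDegree]
  exact h

theorem spor_part {k r : ℕ} {w a : List ℤ × List ℤ} (hw : Val (cv w))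
    (h : Part k r w a) {n : ℕ} (hn : Spor (cv a) n) : Spor (cv w) (r + k * n) := by
  have ha := hn.1
  rw [part_iff hw ha] at h
  rw [spor_iff ha] at hn
  rw [spor_iff hw]
  refine ⟨by rw [h]; exact hn.1, fun b hb => ?_⟩
  obtain ⟨l, hl⟩ := hn.2 b hb
  refine ⟨k * l, ?_⟩
  rw [show r + k * n + b * (k * l) = r + k * (n + b * l) by ring, h]
  exact hl

theorem cp_part {β : Type} [Primcodable β] (k : ℕ) {r : β → ℕ} {w a : β → List ℤ × List ℤ}
    (hr : Computable r) (hw : Computable w) (ha : Computable a) :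
    ComputablePred fun x => Part k (r x) (w x) (a x) := by
  have hcw : Computable fun x => cv (w x) := computable_cv.comp hw
  have hca : Computable fun x => cv (a x) := computable_cv.comp ha
  have hl : Computable fun x => (cv (w x)).1.length + (cv (a x)).1.length :=
    Primrec.nat_add.to_comp.comp (Computable.list_length.comp (Computable.fst.comp hcw))
      (Computable.list_length.comp (Computable.fst.comp hca))
  refine cp_all (p := fun x n => sq (cv (w x)) (r x + k * n) = sq (cv (a x)) n) ?_ hl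
  exact cp_sq (hcw.comp Computable.fst) (hca.comp Computable.fst) (by fun_prop) (by fun_prop)

/-- the data with the number `i` -/
def dat (i : ℕ) : List ℤ × List ℤ := Denumerable.ofNat (List ℤ × List ℤ) i

theorem dat_computable : Computable dat := Primrec.to_comp (Primrec.ofNat (List ℤ × List ℤ))

theorem dat_encode (p : List ℤ × List ℤ) : dat (Encodable.encode p) = p := Denumerable.ofNat_encode p

attribute [irreducible] dat

/-- valid data of order at most `d` -/
def Q (d : ℕ∞) (a : List ℤ × List ℤ) : Prop := Val (cv a) ∧ (a.1.length : ℕ∞) ≤ d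

theorem cp_len (d : ℕ∞) {β : Type} [Primcodable β] {a : β → List ℤ × List ℤ} (ha : Computable a) :
    ComputablePred fun x => ((a x).1.length : ℕ∞) ≤ d := by
  induction d using ENat.recTopCoe with
  | top =>
    have h : ComputablePred fun _ : β => (0 : ℕ) = 0 := cp_eq (Computable.const 0) (Computable.const 0)
    exact h.of_eq fun x => by simp
  | coe m =>
    have h : ComputablePred fun x => (a x).1.length ≤ m :=
      cp_le (Computable.list_length.comp (Computable.fst.comp ha)) (Computable.const m)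
    exact h.of_eq fun x => by simp

theorem cp_valc {β : Type} [Primcodable β] {w : β → List ℤ × List ℤ} (hw : Computable w) :
    ComputablePred fun x => Val (cv (w x)) := cp_comp cp_val (computable_cv.comp hw)

theorem cp_Q (d : ℕ∞) {β : Type} [Primcodable β] {a : β → List ℤ × List ℤ} (ha : Computable a) :
    ComputablePred fun x => Q d (a x) := cp_and (cp_valc ha) (cp_len d ha)

/-- the constant sequence `0` -/
def p0 : List ℤ × List ℤ := ([1], [0])

lemma val_p0 : Val (cv p0) := by
  rw [val_cv]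
  unfold p0
  simp

/-- the data with the number `i` belong to an interleaving of the members of order at most `d` of the
`k`-tuple `s` -/
def IsIlv (k : ℕ) (d : ℕ∞) (s : List (List ℤ × List ℤ)) (i : ℕ) : Prop :=
  Q (k ^ 2 * d) (dat i) ∧ ∀ r < k, Q d (s.getD r p0) → Part k r (dat i) (s.getD r p0)

theorem cp_isIlv (k : ℕ) (d : ℕ∞) :
    ComputablePred fun x : List (List ℤ × List ℤ) × ℕ => IsIlv k d x.1 x.2 := by
  have h1 : Computable fun x : List (List ℤ × List ℤ) × ℕ => dat x.2 :=
    dat_computable.comp Computable.snd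
  refine cp_and (cp_Q _ h1) ?_
  refine cp_all (p := fun (x : List (List ℤ × List ℤ) × ℕ) r =>
    Q d (x.1.getD r p0) → Part k r (dat x.2) (x.1.getD r p0)) ?_ (Computable.const k)
  have h2 : Computable fun y : (List (List ℤ × List ℤ) × ℕ) × ℕ => y.1.1.getD y.2 p0 :=
    cgetD (Computable.fst.comp Computable.fst) Computable.snd (Computable.const _)
  exact cp_imp (cp_Q d h2) (cp_part k Computable.snd (h1.comp Computable.fst) h2)

theorem exists_isIlv {k : ℕ} (hk : 1 ≤ k) {d : ℕ∞} (hd : 1 ≤ d) (s : List (List ℤ × List ℤ)) :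
    ∃ i, IsIlv k d s i := by
  set q : ℕ → List ℤ × List ℤ := fun r => if Q d (s.getD r p0) then s.getD r p0 else p0 with hq
  have hQ : ∀ r, Q d (q r) := by
    intro r
    rw [hq]
    simp only
    split_ifs with h
    · exact h
    · refine ⟨val_p0, ?_⟩
      unfold p0
      simpa using hd
  obtain ⟨w, h1, h2, h3⟩ := exists_ilv hk q fun r => (hQ r).1
  refine ⟨Encodable.encode w, ?_⟩
  unfold IsIlv
  rw [dat_encode]
  refine ⟨⟨h1, ?_⟩, fun r hr h4 => ?_⟩
  · rw [h2]
    have h5 : ((∑ i ∈ range k, (q i).1.length : ℕ) : ℕ∞) ≤ k * d := by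
      rw [Nat.cast_sum]
      refine (Finset.sum_le_card_nsmul _ _ d fun i _ => (hQ i).2).trans ?_
      rw [Finset.card_range, nsmul_eq_mul]
    rw [Nat.cast_mul, pow_two, mul_assoc]
    gcongr
  · rw [part_iff h1 h4.1]
    intro n
    rw [h3 r hr, hq]
    simp only [if_pos h4]

/-- `c` is a bound for the isolated zeros -/
def V (p : List ℤ × List ℤ) (c : ℕ) : Prop := ∀ n, Spor (cv p) n → n ≤ c

theorem V_mono (p : List ℤ × List ℤ) (c c' : ℕ) (h : V p c) (hc : c ≤ c') : V p c' :=
  fun n hn => (h n hn).trans hc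

/-- **Few candidates are enough.** -/
theorem bound_of_lists {k : ℕ} (hk : 1 ≤ k) {d : ℕ∞} (hd : 1 ≤ d)
    {E : (List ℤ × List ℤ) × ℕ → Option ℕ} (hE : Computable E)
    (h : ∀ p, Q (k ^ 2 * d) p → AtMost k E p ∧ ∃ n c, E (p, n) = some c ∧ V p c) :
    ∃ f : List ℤ × List ℤ → ℕ, Computable f ∧ ∀ p, Q d p → V p (f p) := by
  obtain ⟨I, hI, hI'⟩ := search' (cp_isIlv k d) (exists_isIlv hk hd)
  -- refutations
  have h1 : ComputablePred fun z : ((List ℤ × List ℤ) × ℕ) × ℕ =>
      Q d z.1.1 ∧ Spor (cv z.1.1) z.2 ∧ z.1.2 < z.2 :=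
    cp_and (cp_Q d (Computable.fst.comp Computable.fst))
      (cp_and (cp_comp cp_Spor (f := fun z : ((List ℤ × List ℤ) × ℕ) × ℕ => (cv z.1.1, z.2))
        ((computable_cv.comp (Computable.fst.comp Computable.fst)).pair Computable.snd))
        (cp_lt (by fun_prop) (by fun_prop)))
  obtain ⟨r, hr, hr'⟩ := ComputablePred.computable_iff.mp h1
  have hrV : ∀ b c, ¬ (Q d b → V b c) ↔ ∃ t, r ((b, c), t) = true := by
    intro b c
    have h2 : ∀ t, r ((b, c), t) = true ↔ (Q d b ∧ Spor (cv b) t ∧ c < t) := fun t =>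
      (iff_of_eq (congrFun hr' ((b, c), t))).symm
    simp only [h2]
    unfold V
    push Not
    constructor
    · rintro ⟨h3, n, h4, h5⟩
      exact ⟨n, h3, h4, h5⟩
    · rintro ⟨n, h3, h4, h5⟩
      exact ⟨h3, n, h4, h5⟩
  have hdI : Computable fun s => dat (I s) := dat_computable.comp hI
  obtain ⟨j, rfl⟩ : ∃ j, k = j + 1 := ⟨k - 1, by omega⟩
  refine bound_of_tuples (V := fun b c => Q d b → V b c) hr hrV dat_computable
    (fun b => ⟨_, dat_encode b⟩) j (fun z => E (dat (I z.1), z.2))
    (hE.comp (Computable.pair (hdI.comp Computable.fst) Computable.snd)) fun s hs => ?_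
  obtain ⟨h2, h3⟩ := hI' s
  obtain ⟨⟨S, hS, h4⟩, n, c, h5, h6⟩ := h _ h2
  refine ⟨⟨S, hS, fun n c hc => h4 n c hc⟩, n, c, h5, fun b hb hQb m hm => ?_⟩
  obtain ⟨i, hi⟩ := List.mem_iff_getElem?.mp hb
  have hi' : i < j + 1 := by
    rw [← hs]
    by_contra h7
    rw [List.getElem?_eq_none (not_lt.mp h7)] at hi
    exact absurd hi (by simp)
  have hg : s.getD i p0 = b := by
    rw [List.getD_eq_getElem?_getD, hi, Option.getD_some]
  have h7 := h3 i hi'
  rw [hg] at h7
  have h8 := h6 _ (spor_part h2.1 (h7 hQb) hm)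
  have h9 : m ≤ (j + 1) * m := Nat.le_mul_of_pos_left m (by omega)
  omega

end Pool.Agent.Helper98.SK
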